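import Mathlib

/-!
# A counterexample to the conjectured zonal wavenumber bound `a < √3 b⁴`

The Rossby resonance equation is
`x (a² + b²) (a² + b² - 2 a x - 2 b y) = a (x² + y²) (x² + y² - 2 a x - 2 b y)`.
The wavevector `(a, b) = (334508643, 34)` resonates with `(x, y) = (10148112, 149944574)`,
it is not `(800, 4)`, and `a > 250 b⁴`, far above `√3 b⁴`.
-/

namespace Pool.Agent.Results.MP_ab166a_nt.ZonalBoundFails

/-- The homogeneous quintic equation `(∗)` (the cleared-denominator resonance condition). -/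
def Resonant (a b x y : ℤ) : Prop :=
  x * (a ^ 2 + b ^ 2) * (a ^ 2 + b ^ 2 - 2 * a * x - 2 * b * y) =
    a * (x ^ 2 + y ^ 2) * (x ^ 2 + y ^ 2 - 2 * a * x - 2 * b * y)

/-- The wavevector set `Λ`: all integer pairs `(a, b)` such that some integer pair `(x, y)`
satisfies `(∗)` and `a x (a - x) ≠ 0`. -/
def Wavevectors : Set (ℤ × ℤ) :=
  {p | ∃ x y : ℤ, Resonant p.1 p.2 x y ∧ p.1 * x * (p.1 - x) ≠ 0}

/-- The negated form of Q1, with a large margin: there is `(a, b) ∈ Λ` with `a, b > 0`,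
`(a, b) ≠ (800, 4)` and `a ≥ √3 b⁴`; moreover it can be chosen with `a > 250 b⁴`. -/
theorem result :
    ∃ a b : ℤ, (a, b) ∈ Wavevectors ∧ 0 < a ∧ 0 < b ∧ (a, b) ≠ ((800 : ℤ), (4 : ℤ)) ∧
      Real.sqrt 3 * (b : ℝ) ^ 4 ≤ (a : ℝ) ∧ 250 * b ^ 4 < a := by
  refine ⟨334508643, 34, ?_, by norm_num, by norm_num, ?_, ?_, by norm_num⟩
  · refine ⟨10148112, 149944574, ?_, ?_⟩
    · unfold Resonant
      norm_num
    · norm_num
  · simp
  · have h3 : Real.sqrt 3 ≤ 2 := by
      rw [Real.sqrt_le_left (by norm_num)]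
      norm_num
    push_cast
    nlinarith [h3]

end Pool.Agent.Results.MP_ab166a_nt.ZonalBoundFails
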